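import Pool.Agent.Q73.CR.Conv

/-!
# Murre's conjecture (D) for varieties whose cohomology is a direct factor of that of `Z`
-/

set_option autoImplicit false

open CategoryTheory AlgebraicGeometry

universe u v w

namespace Pool.Agent.Results.MP_583472_ag.CohomologicalFactors

open Pool.Agent.H914 Pool.Agent.W492.BB Pool.Agent.TH133 Pool.Agent.Y107 Pool.Agent.Q69.Murre
  Pool.Agent.Q73.CR

/-- Let the cohomology of `X` be, via correspondences `α` and `β` of degree zero, a direct factor of
the cohomology of `Z`, where `Z` has a Chow-Kunneth decomposition `π` satisfying (D) and its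
homologically trivial self-correspondences are nilpotent. Then (D) for `X` holds if and only if `α`
makes the Chow motive of `X` a direct factor of that of `Z`; and for every `X` satisfying (D) this
is so without (D) for `Z`. -/
theorem result {k : Type u} [Field k] {𝒱 : VarClass k} (C : TheoryData.{u, v, 0} 𝒱 ℚ)
    [IsChowComplex C] {K : Type w} [Field K] (H : WeilTheoryData.{u, v, w} C K) [IsWeilProj H]
    {X Z : 𝒱.Obj} {α : C.A (X.prod Z)} {β : C.A (Z.prod X)}
    (hF : CohomologyFactor H (fun _ => True) α β) (hZ : HomNilpotent H Z)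
    {π : ℕ → C.A (Z.prod Z)} (hπ : IsCK H Z π) :
    (∃ p : ℕ → C.A (X.prod X), IsCK H X p) ∧
    (MurreD H X → MotiveFactor C α) ∧
    ((∀ (i : ℕ) (x : C.A Z), x ∈ ckFil C π i 1 ↔ C.Deg i x ∧ H.cl x = 0) →
      (MurreD H X ↔ MotiveFactor C α)) := by
  have hn := homNilpotent_iff.1 hZ
  obtain ⟨p, ε, b, h⟩ := exists_phantom' hF hZ hπ
  have key : MurreD H X → MotiveFactor C α := fun hC =>
    h.factor (zero_of_kills IsChowComplex.blochSrinivas h.ht.1 h.idem (h.kills_of_D hC))
  refine ⟨⟨_, h.ck 0 (by omega)⟩, key, fun hD => ⟨key, ?_⟩⟩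
  rintro ⟨β', h2, h3⟩
  exact murreD_of_factor hF.deg_left h2 h3 hn hπ hD

end Pool.Agent.Results.MP_583472_ag.CohomologicalFactors
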