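import Pool.Agent.Q69.Murre.Main

/-!
# Murre's conjecture (D): the middle dimension of self-products suffices

`𝒱` is a class of smooth projective geometrically irreducible varieties over the field `k` closed
under products (for example all of them), `C` the Chow groups with rational coefficients (in the
form of their formal properties, `IsChowProj`) and `H` a Weil cohomology theory (`IsWeilProj`).

A Chow-Kunneth decomposition `π` of `X` induces the decomposition `selfProd C π π` of `X × X`, the
product of the transposed decomposition and of `π`. The theorem: if the equality of (D) holds for this one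
decomposition of `X × X`, in the single codimension `dim X`, for one decomposition `π` of `X`, then
`X` satisfies (D) for all its Chow-Kunneth decompositions and in all codimensions, it satisfies the
first half of (B), and (C), the homologically trivial self-correspondences strictly lower the
weights, any composition of `2 dim X + 1` of them is zero, and the Chow-Kunneth decomposition is
unique up to conjugation by a unit acting as the identity on the cohomology.

Consequently (D) for all varieties is equivalent to this single case for all `X`, and also to the
conjunction of (C) for all varieties and of the injectivity of `End(h^a(X)) → End(H^a(X))` on the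
self-correspondences of degree zero.
-/

open CategoryTheory AlgebraicGeometry

set_option autoImplicit false

universe u v w

namespace Pool.Agent.Results.MP_583472_ag.MiddleOfSelfProducts

open Pool.Agent.H914 Pool.Agent.W492.BB Pool.Agent.TH133 Pool.Agent.Q69.Murre

/-- Murre's conjecture (D) in the middle codimension of `X × X` for one decomposition implies the
conjectures (D), (C), the first half of (B), nilpotence and uniqueness up to conjugation for `X`; so
(D) for all varieties is equivalent to its middle-dimensional case for self-products, and to (C)
together with the faithfulness of `End(h^a(X))` on cohomology. -/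
theorem result {k : Type u} [Field k] {𝒱 : VarClass k} (C : TheoryData.{u, v, 0} 𝒱 ℚ)
    [IsChowProj C] {K : Type w} [Field K] (H : WeilTheoryData.{u, v, w} C K) [IsWeilProj H] :
    (∀ X : 𝒱.Obj, (∃ π : ℕ → C.A (X.prod X), IsCK H X π ∧ MiddleD C H π) →
      MurreD H X ∧ MurreC H X ∧ MurreB0 H X ∧ StrictlyLowers H X ∧
        NilpotentOfIndex H X (2 * X.dim + 1) ∧ UniqueUpToConjugation H X) ∧
    [∀ X : 𝒱.Obj, MurreD H X,
      ∀ X : 𝒱.Obj, (∃ π : ℕ → C.A (X.prod X), IsCK H X π) →
        ∃ π : ℕ → C.A (X.prod X), IsCK H X π ∧ MiddleD C H π,
      ∀ X : 𝒱.Obj, MurreC H X ∧ ∀ π : ℕ → C.A (X.prod X), IsCK H X π →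
        ∀ γ : C.A (X.prod X), C.Deg X.dim γ → H.cl γ = 0 → ∀ a : ℕ,
          C.comp (C.comp (π a) γ) (π a) = 0].TFAE :=
  Pool.Agent.Q69.Murre.middle_D C H

end Pool.Agent.Results.MP_583472_ag.MiddleOfSelfProducts
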