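import Pool.Agent.Q69.Cut.MainD

/-!
# Murre's conjectures (A) and (D): one cut for every variety suffices

`𝒱` is a class of smooth projective geometrically irreducible varieties over the field `k` closed
under products and containing a variety of odd dimension (for example all smooth projective complex
varieties), `C` the Chow groups with rational coefficients (in the form of their formal properties,
`IsChowProj`) and `H` a Weil cohomology theory (`IsWeilProj`).

A lower half of `X`, of dimension `d`, is an idempotent `e ∈ CH^d(X × X)` which acts on the
cohomology `H(X)` as the projector onto `⊕_(m < d) H^m(X)`; `e^t` denotes its transpose. The theorem: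
every variety has a Chow-Kunneth decomposition and the homologically trivial cycles are `F^1` for all
decompositions (Murre's conjectures (A) and (D)) if and only if every `X` has a lower half, and all
its lower halves `e` satisfy `(1 - e) ∘ γ ∘ (1 - e^t) = 0` for all homologically trivial
`γ ∈ CH^d(X × X)`. It is also equivalent that this holds for one lower half of every `X` and that
homologically trivial idempotents vanish.
-/

open CategoryTheory AlgebraicGeometry

set_option autoImplicit false

universe u v w

namespace Pool.Agent.Results.MP_583472_ag.OneCutPerVariety

open Pool.Agent.H914 Pool.Agent.W492.BB Pool.Agent.TH133 Pool.Agent.Q69.Cut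

/-- Murre's conjectures (A) and (D) for all varieties are equivalent to one linear condition on the
homologically trivial self-correspondences of each variety, in terms of one idempotent. -/
theorem result {k : Type u} [Field k] {𝒱 : VarClass k} (C : TheoryData.{u, v, 0} 𝒱 ℚ)
    [IsChowProj C] {K : Type w} [Field K] (H : WeilTheoryData.{u, v, w} C K) [IsWeilProj H]
    (hodd : ∃ W : 𝒱.Obj, Odd W.dim) :
    [(∀ X : 𝒱.Obj, ∃ π : ℕ → C.A (X.prod X), IsCK H X π) ∧ ∀ X : 𝒱.Obj, MurreD H X,
      ∀ X : 𝒱.Obj, (∃ e : C.A (X.prod X), IsHalf H X e) ∧
        ∀ e : C.A (X.prod X), IsHalf H X e → LowersHT H X e,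
      ∀ X : 𝒱.Obj, (∃ e : C.A (X.prod X), IsHalf H X e ∧ LowersHT H X e) ∧
        NoPhantom H X].TFAE := by
  have h := murreD_tfae C H hodd
  tfae_have 1 ↔ 2 := h.out 0 1
  tfae_have 2 ↔ 3 := h.out 1 2
  tfae_finish

end Pool.Agent.Results.MP_583472_ag.OneCutPerVariety
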