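import Pool.Agent.Q73.LS.Murre

/-!
# Murre's conjecture (D) for Lefschetz sections and covers of dimension at most three

`𝒱` is a class of smooth projective geometrically irreducible varieties over the field `k` closed
under products (for example all of them), `C` the Chow groups with rational coefficients (in the
form of their formal properties, `IsChowProj`), `H` a Weil cohomology theory (`IsWeilProj`), with the
classical fact that correspondences acting as zero on `H^1` act as zero on `Pic^0 ⊗ ℚ`
(`PicardFaithful`).

Let `f : X → Y` be a morphism, `dim Y = dim X + r`, such that `f^* : H^i(Y) → H^i(X)` is onto for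
`i < dim X` (`OntoBelow`) and `f_* [X] = c D^r`, `c ≠ 0`, for a divisor class `D`; for instance the
inclusion of a smooth complete intersection of `r` ample divisors proportional to `D` (Lefschetz),
or, with `r = 0`, a covering of degree `c` branched along ample divisors. Let `Y` have a
Chow-Kunneth decomposition `π` satisfying motivic hard Lefschetz for `D` (for abelian varieties a
theorem of Deninger-Murre and Kunnemann).

If `dim X ≤ 3`, then `X` has a Chow-Kunneth decomposition `p` satisfying Murre's conjecture (D):
`F^1 CH^j(X)` is the group of homologically trivial cycles, for all `j`; and `f^*` is an isomorphism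
of Chow motives `h^i(Y) ≅ h^i(X)` for `i < dim X`. The same holds in all dimensions if for
`2 ≤ j ≤ dim X / 2` the homologically trivial cycles of codimension `j` on `X` are pulled back from
homologically trivial cycles on `Y`, and these are killed by `π i` for `i ≥ 2 j`.
-/

open CategoryTheory AlgebraicGeometry

set_option autoImplicit false

universe u v w

namespace Pool.Agent.Results.MP_583472_ag.ThreefoldSections

open Pool.Agent.H914 Pool.Agent.W492.BB Pool.Agent.TH133 Pool.Agent.Y107 Pool.Agent.Q73.LS

/-- Murre's conjecture (D) for Lefschetz sections and covers `X` of dimension at most three, and in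
all dimensions under the conditions on homologically trivial cycles of codimension `j`,
`2 ≤ j ≤ dim X / 2`. -/
theorem result {k : Type u} [Field k] {𝒱 : VarClass k} (C : TheoryData.{u, v, 0} 𝒱 ℚ)
    [IsChowProj C] {K : Type w} [Field K] (H : WeilTheoryData.{u, v, w} C K) [IsWeilProj H]
    (hP : PicardFaithful H) (X Y : 𝒱.Obj) (f : X ⟶ Y) (r : ℕ) (hr : Y.dim = X.dim + r)
    (hf : OntoBelow H f) (D : C.A Y) (hD : C.Deg 1 D) (c : ℚ) (hc : c ≠ 0)
    (hX : C.push f 1 = c • D ^ r) (π : ℕ → C.A (Y.prod Y)) (hπ : IsCK H Y π)
    (hM : MotivicLefschetz C (C.mulCorr D) π) :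
    (X.dim ≤ 3 → ∃ p, IsCK H X p ∧ SatisfiesD H p ∧ PullIso C f π p) ∧
    ((∀ j : ℕ, 2 ≤ j → 2 * j ≤ X.dim →
      (∀ x : C.A X, C.Deg j x → H.cl x = 0 →
        ∃ y : C.A Y, C.Deg j y ∧ H.cl y = 0 ∧ C.pull f y = x) ∧
      ∀ i, 2 * j ≤ i → ∀ y : C.A Y, C.Deg j y → H.cl y = 0 → C.act (π i) y = 0) →
      ∃ p, IsCK H X p ∧ SatisfiesD H p ∧ PullIso C f π p) :=
  ⟨fun h4 => murreD_section hP hD hc hr hX hf hπ hM fun j h1 h2 => absurd h2 (by omega),
    fun h => murreD_section hP hD hc hr hX hf hπ hM h⟩

end Pool.Agent.Results.MP_583472_ag.ThreefoldSections
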